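import Pool.Agent.H61.KV.TF

/-!
# Kuiper board KV, module QPR: the quadratic part
-/

open Topology Set
open Pool.Agent.H61.KV

namespace Pool.Agent.H17.KV.QPR

theorem dl_eq (g : F4 → F4) (g₀ : F4) (l : F4 →ₗ[ℝ] F4) (β : F4 →ₗ[ℝ] F4 →ₗ[ℝ] F4)
    (hg : ∀ u, g u = g₀ + l u + β u u) (u w : F4) : Dl g u w = (2 : ℝ) • β w w := by
  unfold Dl
  rw [hg, hg, hg]
  simp only [map_add, map_sub, LinearMap.add_apply, LinearMap.sub_apply]
  module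

theorem int_smul {T : Set F4} (hT : IsCC T) {x : F4} (hx : x ∈ interior T) :
    (2 : ℝ) • x ∈ interior T := by
  rw [mem_interior] at hx ⊢
  obtain ⟨U, hU, hUo, hxU⟩ := hx
  refine ⟨(fun y : F4 => (2 : ℝ)⁻¹ • y) ⁻¹' U, ?_, hUo.preimage (continuous_const_smul _), ?_⟩
  · intro y hy
    have h1 : (2 : ℝ) • ((2 : ℝ)⁻¹ • y) ∈ T := hT.smul 2 (by norm_num) _ (hU hy)
    rwa [smul_smul, mul_inv_cancel₀ (by norm_num : (2 : ℝ) ≠ 0), one_smul] at h1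
  · change (2 : ℝ)⁻¹ • (2 : ℝ) • x ∈ U
    rwa [smul_smul, inv_mul_cancel₀ (by norm_num : (2 : ℝ) ≠ 0), one_smul]

theorem pf_QPR : T_QPR := by
  intro T g g₀ l β h hsymm hg
  have hcc : IsCC T := h.sc.cc
  refine ⟨h.sc, hsymm, ?_, ?_⟩
  · intro w hw
    have h1 := h.bdy 0 w hw
    rw [dl_eq g g₀ l β hg] at h1
    obtain ⟨h2, h3, h4⟩ := h1
    refine ⟨?_, ?_, ?_⟩
    · have h5 := hcc.smul (2 : ℝ)⁻¹ (by norm_num) _ h2
      rwa [smul_smul, inv_mul_cancel₀ (by norm_num : (2 : ℝ) ≠ 0), one_smul] at h5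
    · intro h0
      exact h3 (by rw [h0, smul_zero])
    · intro hi
      exact h4 (int_smul hcc hi)
  · intro t ht
    obtain ⟨D, hD, hD2⟩ := h.pln t ht 0
    refine ⟨D, hD, fun w => ?_⟩
    rw [hD2 w, dl_eq g g₀ l β hg]
    constructor
    · rintro ⟨c, hc⟩
      refine ⟨(2 : ℝ)⁻¹ * c, ?_⟩
      rw [mul_smul, ← hc, smul_smul, inv_mul_cancel₀ (by norm_num : (2 : ℝ) ≠ 0), one_smul]
    · rintro ⟨c, hc⟩
      exact ⟨2 * c, by rw [hc, mul_smul]⟩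

end Pool.Agent.H17.KV.QPR
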