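import Pool.Agent.H61.KV.TN
import Pool.Agent.H24.LB.PL1
import Pool.Agent.H4.LB.S2H

/-!
# Kuiper board KV, module T3G: a set which misses an essential sphere
-/

open Topology Set
open Pool.Agent.H59 Pool.Agent.H64.LB Pool.Agent.H24.LB Pool.Agent.H61.KU
open Pool.Agent.H61.KV
open scoped unitInterval

namespace Pool.Agent.H17.KV.T3G

/-- the map of a set into another set induced by a continuous map -/
noncomputable def resMap {A B : Type} [TopologicalSpace A] [TopologicalSpace B] (f : C(A, B))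
    (W : Set A) (W' : Set B) (h : ∀ x ∈ W, f x ∈ W') : C(W, W') :=
  ⟨fun x => ⟨f x.1, h x.1 x.2⟩, Continuous.subtype_mk (f.continuous.comp continuous_subtype_val) _⟩

theorem pf_T3G (hHM : T_HM) (hE : T_S2E) (hh : T_HOM) (hW : T_T3W) : T_T3G := by
  intro α W hαW ⟨q, hqW, hqα⟩ hα z
  -- the map S2 → Sph 2
  have hbij : Function.Bijective (HH.map (ZMod 2) 2 S2.toSph) := by
    obtain ⟨e, he⟩ := hE
    refine Pool.Agent.H4.LB.bij_of_homotopic hHM (ZMod 2) S2.toSph e.invFun ?_ ?_ 2
    · rw [← he]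
      exact e.left_inv
    · rw [← he]
      exact e.right_inv
  set α1 : C(S2, PN 2) := α.comp S2.toSph with hα1
  have hi1 : Function.Injective (HH.map (ZMod 2) 2 α1) := by
    intro x y hxy
    rw [hα1, HH.map_comp, HH.map_comp] at hxy
    exact hbij.1 (hα hxy)
  obtain ⟨e, he⟩ := hh 2 q q0
  have hmα : ∀ s, e (α1 s) ∈ (({q0} : Set (PN 2))ᶜ) := by
    intro s hs
    rw [mem_singleton_iff, ← he] at hs
    exact hqα _ (e.injective hs)
  let α2 : C(S2, NN) := ⟨fun s => ⟨e (α1 s), hmα s⟩, by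
    exact Continuous.subtype_mk (e.continuous.comp α1.continuous) _⟩
  have hejs : Function.Bijective (HH.map (ZMod 2) 2 (e : C(PN 2, PN 2))) := by
    refine Pool.Agent.H4.LB.bij_of_homotopic hHM (ZMod 2) (e : C(PN 2, PN 2))
      (e.symm : C(PN 2, PN 2)) ?_ ?_ 2
    · have : (e.symm : C(PN 2, PN 2)).comp (e : C(PN 2, PN 2)) = ContinuousMap.id _ := by
        ext1 x
        exact e.symm_apply_apply x
      rw [this]
    · have : (e : C(PN 2, PN 2)).comp (e.symm : C(PN 2, PN 2)) = ContinuousMap.id _ := by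
        ext1 x
        exact e.apply_symm_apply x
      rw [this]
  let W2 : Set NN := {y | e.symm y.1 ∈ W}
  have hmem : ∀ x ∈ W, e x ∈ (({q0} : Set (PN 2))ᶜ) := by
    intro x hx hs
    rw [mem_singleton_iff, ← he] at hs
    exact hqW (e.injective hs ▸ hx)
  let ρ : C(W, W2) := ⟨fun x => ⟨⟨e x.1, hmem x.1 x.2⟩, by
      change e.symm (e x.1) ∈ W
      rw [e.symm_apply_apply]
      exact x.2⟩, by
    refine Continuous.subtype_mk (Continuous.subtype_mk ?_ _) _
    exact e.continuous.comp continuous_subtype_val⟩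
  have h1 := hW α2 W2 ?_ ?_ (HH.map (ZMod 2) 2 ρ z)
  · have h2 : ((inc (({q0} : Set (PN 2))ᶜ)).comp (inc W2)).comp ρ
        = (e : C(PN 2, PN 2)).comp (inc W) := by
      ext1 x
      rfl
    rw [← HH.map_comp, h2, HH.map_comp] at h1
    apply hejs.1
    rw [h1, map_zero]
  · intro s hs
    have h3 : e.symm (e (α1 s)) ∈ W := hs
    rw [e.symm_apply_apply] at h3
    exact hαW _ h3
  · have h1 : (inc (({q0} : Set (PN 2))ᶜ)).comp α2 = (e : C(PN 2, PN 2)).comp α1 := by
      ext1 x
      rfl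
    rw [h1]
    intro x y hxy
    rw [HH.map_comp (ZMod 2) 2 α1, HH.map_comp (ZMod 2) 2 α1] at hxy
    exact hi1 (hejs.1 hxy)

end Pool.Agent.H17.KV.T3G
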